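import Pool.Agent.H77.SW.Defs
import Pool.Agent.H19.Cub.Defs

/-!
# Singer without colours for special cube complexes: definitions

`X` is a finite set with involutions `s v` and labels `L x` (the vertices of a special cube complex).
`ZC` = cycles of top degree with coefficients in a vector space with involutions `r v`; `rL` = the
involutions `1 + c (1 + R v)` of the functions on a finite group with marked involutions.
-/

set_option autoImplicit false
set_option linter.unusedSectionVars false

open Finset

namespace Pool.Agent.H71.SC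

open Pool.Agent.H77.SW Pool.Agent.H19.Cub

variable {V : Type} [DecidableEq V] [Fintype V] {X : Type}

/-- cycles of degree `n` of the cube complex with coefficients in `Y` -/
def ZC (K : Type) [Field K] (G : SimpleGraph V) (L : X → Finset V) (s : V → X → X) (n : ℕ)
    {Y : Type} [AddCommGroup Y] [Module K Y] (r : V → Y →ₗ[K] Y) :
    Submodule K (Finset V → X → Y) where
  carrier := {z | (∀ σ x, z σ x ≠ 0 → σ ⊆ L x ∧ G.IsClique (σ : Set V) ∧ σ.card = n) ∧
    (∀ σ, ∀ v ∈ σ, ∀ x, r v (z σ (s v x)) = z σ x) ∧ ∀ κ x, ∑ v ∈ κᶜ, z (insert v κ) x = 0}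
  zero_mem' := by
    refine ⟨fun σ x h => absurd rfl h, fun σ v _ x => ?_, fun κ x => ?_⟩
    · simp
    · simp
  add_mem' := by
    rintro z w ⟨h1, h2, h3⟩ ⟨h4, h5, h6⟩
    refine ⟨fun σ x h => ?_, fun σ v hv x => ?_, fun κ x => ?_⟩
    · by_cases hz : z σ x = 0
      · by_cases hw : w σ x = 0
        · exact absurd (by simp [hz, hw]) h
        · exact h4 σ x hw
      · exact h1 σ x hz
    · simp only [Pi.add_apply, map_add]
      rw [h2 σ v hv x, h5 σ v hv x]
    · simp only [Pi.add_apply, sum_add_distrib, h3 κ x, h6 κ x, add_zero]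
  smul_mem' := by
    rintro c z ⟨h1, h2, h3⟩
    refine ⟨fun σ x h => h1 σ x fun h0 => h ?_, fun σ v hv x => ?_, fun κ x => ?_⟩
    · simp [h0]
    · simp only [Pi.smul_apply, map_smul]
      rw [h2 σ v hv x]
    · simp only [Pi.smul_apply, ← smul_sum, h3 κ x, smul_zero]

theorem mem_ZC {K : Type} [Field K] {G : SimpleGraph V} {L : X → Finset V} {s : V → X → X} {n : ℕ}
    {Y : Type} [AddCommGroup Y] [Module K Y] {r : V → Y →ₗ[K] Y} {z : Finset V → X → Y} :
    z ∈ ZC K G L s n r ↔
      (∀ σ x, z σ x ≠ 0 → σ ⊆ L x ∧ G.IsClique (σ : Set V) ∧ σ.card = n) ∧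
      (∀ σ, ∀ v ∈ σ, ∀ x, r v (z σ (s v x)) = z σ x) ∧
      ∀ κ x, ∑ v ∈ κᶜ, z (insert v κ) x = 0 := Iff.rfl

/-- the dimension of the space of cycles with coefficients in the regular representation -/
noncomputable def dC (K : Type) [Field K] {G : SimpleGraph V} (L : X → Finset V)
    (s : V → X → X) (n : ℕ) {P : Type} [Group P] (D : PG G P) : ℕ :=
  Module.finrank K (ZC K G L s n (rP K D))

/-- the involutions `1 + c (1 + R v)`, `R v f p = f (p * g v)` -/
def rL (K : Type) [Field K] {G : SimpleGraph V} {P : Type} [Group P] (D : PG G P) (c : K) (v : V) :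
    (P → K) →ₗ[K] (P → K) where
  toFun f p := f p + c * (f p + f (p * D.g v))
  map_add' f f' := by
    funext p
    simp only [Pi.add_apply]
    ring
  map_smul' a f := by
    funext p
    simp only [Pi.smul_apply, smul_eq_mul, RingHom.id_apply]
    ring

/-- the marked group, for the graph of the labels in `U` -/
def restr {G : SimpleGraph V} {P : Type} [Group P] (D : PG G P) (U : Finset V) :
    PG (G.comap (Subtype.val : {v // v ∈ U} → V)) P where
  g v := D.g v.1
  sq v := D.sq v.1
  comm u v h := D.comm u.1 v.1 h
  b p v := D.b p v.1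
  b_mul p q v := D.b_mul p q v.1
  b_g u v := by
    rw [D.b_g]
    by_cases h : u = v
    · subst h
      simp
    · rw [if_neg h, if_neg fun h' => h (Subtype.ext h')]
  two := D.two

/-- the number of the cubes of dimension `n` (a cube has `2 ^ n` vertices) -/
noncomputable def cC (G : SimpleGraph V) (L : X → Finset V) (n : ℕ) : ℝ :=
  (Nat.card {q : Finset V × X // q.1 ⊆ L q.2 ∧ G.IsClique (q.1 : Set V) ∧ q.1.card = n} : ℝ) / 2 ^ n

/-- the Betti number in degree `i` of the cube complex with coefficients in the regular
representation (the chains of degree `i + 1` have the dimension `cC G L (i + 1) * |P|`) -/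
noncomputable def hC (K : Type) [Field K] {G : SimpleGraph V} (L : X → Finset V)
    (s : V → X → X) (i : ℕ) {P : Type} [Group P] [Fintype P] (D : PG G P) : ℝ :=
  dC K L s i D + dC K L s (i + 1) D - cC G L (i + 1) * Fintype.card P

/-- `cC` for one vertex with all labels -/
noncomputable def cz (G : SimpleGraph V) (n : ℕ) : ℝ :=
  (Nat.card {σ : Finset V // G.IsClique (σ : Set V) ∧ σ.card = n} : ℝ) / 2 ^ n

/-- the Betti number in degree `i` of the right-angled Coxeter group with coefficients in the regular
representation of `P` -/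
noncomputable def hz (K : Type) [Field K] {G : SimpleGraph V} (i : ℕ) {P : Type} [Group P]
    [Fintype P] (D : PG G P) : ℝ :=
  dz K i D + dz K (i + 1) D - cz G (i + 1) * Fintype.card P

/-- The homology of the right-angled Coxeter group of `G` in degree `i` grows sublinearly for finite
two-groups: for every `ε` there is a finite two-group `P` with marked involutions such that the Betti
number of degree `i` with coefficients in the functions on `P` is at most `ε |P|`. -/
def Growth0 (G : SimpleGraph V) (i : ℕ) : Prop :=
  ∀ ε : ℝ, 0 < ε → ∃ (K : Type) (_ : Field K) (_ : CharP K 2) (P : Type) (_ : Group P)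
    (_ : Fintype P) (D : PG G P), hz K i D ≤ ε * Fintype.card P

end Pool.Agent.H71.SC
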