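import Pool.Agent.H71.SC.Defs

/-!
# Singer without colours for special cube complexes: the degeneration
-/

set_option autoImplicit false
set_option linter.unusedSectionVars false

open Finset

namespace Pool.Agent.H71.SC

open Pool.Agent.H77.SW Pool.Agent.H19.Cub

/-- The kernels of the maps `c F + F'`. Let `W` be a complement of `ker F`, `g` with
`g ∘ F = id` on `W`; then `g ∘ (c F + F') = c + B` on `W`, `B = g ∘ F'`. If `-c` is not a root of the
characteristic polynomial of `B` (at most `dim W` roots) then `c F + F'` is injective on `W`, so the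
kernel has at most the dimension of `M / W`. For two pairs of maps: avoid the roots of both
polynomials. -/
theorem exists_small_ker {K M N M' N' : Type} [Field K] [Fintype K] [AddCommGroup M] [Module K M]
    [Module.Finite K M] [AddCommGroup N] [Module K N] [AddCommGroup M'] [Module K M']
    [Module.Finite K M'] [AddCommGroup N'] [Module K N'] (F₀ F₁ : M →ₗ[K] N) (E₀ E₁ : M' →ₗ[K] N')
    (h : Module.finrank K M + Module.finrank K M' < Fintype.card K) :
    ∃ c : K, Module.finrank K (LinearMap.ker (c • F₀ + F₁)) ≤
        Module.finrank K (LinearMap.ker F₀) ∧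
      Module.finrank K (LinearMap.ker (c • E₀ + E₁)) ≤ Module.finrank K (LinearMap.ker E₀) := by
  sorry

variable {V : Type} [DecidableEq V] [Fintype V] {X : Type} [Fintype X] {K : Type} [Field K]
  [CharP K 2] [Fintype K]

/-- **The degeneration.** For a fixed `n` let `M` = the functions `z : Finset V → X → P → K` with the
supports `σ ⊆ L x`, `σ` a clique, `|σ| = n`, and the equations `∑ v ∉ κ, z (κ ∪ v) x = 0` for all `κ`,
`x`. The condition `rL K D c v (z σ (s v x)) = z σ x` (`v ∈ σ`) is
`c (z σ (s v x) + R v (z σ (s v x))) + (z σ (s v x) + z σ x) = 0` (characteristic two). So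
`ZC K G L s n (rL K D c)` is the kernel of `c F₀ + F₁` on `M`, `F₀ z (σ, v, x) = z σ (s v x) +
R v (z σ (s v x))` and `F₁ z (σ, v, x) = z σ (s v x) + z σ x` for `v ∈ σ` and zero for `v ∉ σ`. Since
`s v` is a bijection, `F₀ z = 0` iff `R v (z σ x) = z σ x` for all `v ∈ σ` and all `x`: the kernel of
`F₀` is the product over `x` of the spaces of cycles with labels in `L x`, and `σ ↦ z (σ.map val) x` is
an injective map of the component at `x` to `Zs K (G.comap val) n (rP K (restr D (L x)))`. Apply
`exists_small_ker` to the maps for `n = i` and `n = i + 1`. -/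
theorem deg (G : SimpleGraph V) (L : X → Finset V) (s : V → X → X) (hs : IsSpec G L s) (i : ℕ)
    {P : Type} [Group P] [Fintype P] (D : PG G P)
    (hK : 2 * Fintype.card (Finset V × X × P) < Fintype.card K) :
    ∃ c : K, Module.finrank K (ZC K G L s i (rL K D c)) ≤ ∑ x, dz K i (restr D (L x)) ∧
      Module.finrank K (ZC K G L s (i + 1) (rL K D c)) ≤ ∑ x, dz K (i + 1) (restr D (L x)) := by
  sorry

end Pool.Agent.H71.SC
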