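import Pool.Agent.H71.SC.Fld
import Pool.Agent.H19.Cub.HFin

/-!
# Singer without colours for special cube complexes: dimensions of the chains
-/

set_option autoImplicit false
set_option linter.unusedSectionVars false

open Finset

namespace Pool.Agent.H71.SC

open Pool.Agent.H77.SW Pool.Agent.H19.Cub Pool.Agent.H85.Fold Pool.Agent.H85.Fold2

variable {V : Type} [DecidableEq V] [Fintype V] {X : Type} [Fintype X]

/-- The number of the elements of `P` whose bits vanish on `σ`: the bits are a homomorphism of `P` onto
the cube (`b_g`), so all fibres of the restriction to `σ` have the same number of elements. -/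
theorem card_bits {G : SimpleGraph V} {P : Type} [Group P] [Fintype P] (D : PG G P) (σ : Finset V) :
    2 ^ σ.card * Nat.card {p : P // ∀ v ∈ σ, D.b p v = 0} = Fintype.card P := by
  sorry

/-- The dimension of the antisymmetric chains on `X × P` is at least `cC G L n * |P|`: the values at the
points `(x, p)`, `σ ⊆ L x`, with `b p v = 0` for `v ∈ σ` are arbitrary; the chain with the values
`w σ x p` there has the value `(-1) ^ (number of v ∈ σ with b p v = 1) * w σ x' p'` at `(x, p)`,
`(x', p') = ` the image of `(x, p)` under the product of the commuting involutions `prS s D.g v`,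
`v ∈ σ`, `b p v = 1`. -/
theorem finrank_SCh_ge {G : SimpleGraph V} (L : X → Finset V) (s : V → X → X) (hs : IsSpec G L s)
    (n : ℕ) {P : Type} [Group P] [Fintype P] (D : PG G P) :
    cC G L n * Fintype.card P ≤
      Module.finrank ℂ (SCh ℂ G (prY L P) (fun _ => (1 : Matrix Unit Unit ℂ)) (prS s D.g) n) := by
  sorry

/-- **The Betti numbers over the complex numbers.** `bT = dim Z_i + dim Z_{i+1} - dim C_{i+1}`
(`finrank_SB`; the boundaries are cycles, see the private `hf_SB_le` of `HFin`), `finrank_SZ_le`,
`finrank_SZ_eq`, `finrank_SCh_ge`. -/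
theorem bT_le_hC (F : Type) [Field F] [CharP F 2] {G : SimpleGraph V} (L : X → Finset V)
    (s : V → X → X) (hs : IsSpec G L s) (ν : V → ℕ) (hν : Function.Injective ν) (i : ℕ) {P : Type}
    [Group P] [Fintype P] (D : PG G P) :
    (bT ℂ G (prY L P) (prS s D.g) ν i : ℝ) ≤ hC F L s i D := by
  sorry

end Pool.Agent.H71.SC
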