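import Pool.Agent.H71.SC.Defs
import Pool.Agent.H19.Cub.DropS

/-!
# Singer without colours for special cube complexes: fields
-/

set_option autoImplicit false
set_option linter.unusedSectionVars false

open Finset

namespace Pool.Agent.H71.SC

open Pool.Agent.H77.SW Pool.Agent.H19.Cub Pool.Agent.H85.Fold Pool.Agent.H85.Fold2

/-- The rank of an integer matrix in a field `F` is at most the rank in a field `F'` if the integers
which vanish in `F'` vanish in `F` (a minor which is not zero in `F` is not zero in `F'`; the proof of
the private theorem `cmp_rank` of `Pool.Agent.H19.Cub.CmpS` with `ℂ` replaced by `F'`). -/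
theorem rank_le_of {m n : Type} [Fintype m] [Fintype n] (A : Matrix m n ℤ) (F F' : Type) [Field F]
    [Field F'] (h : ∀ a : ℤ, (a : F') = 0 → (a : F) = 0) :
    (A.map (Int.cast : ℤ → F)).rank ≤ (A.map (Int.cast : ℤ → F')).rank := by
  sorry

variable {V : Type} [DecidableEq V] [Fintype V]

/-- The dimension of the cycles over two fields: `exists_matsS` with `A = 1` (`D = Unit`) gives an
integer matrix `A₁` with `finrank (SZ F) + rank A₁ = ` const for every field `F`, and `rank_le_of`. -/
theorem finrank_SZ_le {Ω : Type} [Fintype Ω] (G : SimpleGraph V) (Y : Ω → Finset V)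
    (s : V → Ω → Ω) (ν : V → ℕ) (i : ℕ) (F F' : Type) [Field F] [Field F']
    (h : ∀ a : ℤ, (a : F') = 0 → (a : F) = 0) :
    Module.finrank F' (SZ F' G Y (fun _ => (1 : Matrix Unit Unit F')) s ν i) ≤
      Module.finrank F (SZ F G Y (fun _ => (1 : Matrix Unit Unit F)) s ν i) := by
  sorry

/-- In characteristic two the cycles `SZ` on `X × P` with trivial coefficients are the cycles `ZC` with
coefficients in the functions on `P` (forget `Unit`, curry; the signs are `1`). -/
theorem finrank_SZ_eq {X : Type} [Fintype X] (F : Type) [Field F] [CharP F 2] (G : SimpleGraph V)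
    (L : X → Finset V) (s : V → X → X) (hs : IsSpec G L s) (ν : V → ℕ) (n : ℕ) {P : Type} [Group P]
    [Fintype P] (D : PG G P) :
    Module.finrank F (SZ F G (prY L P) (fun _ => (1 : Matrix Unit Unit F)) (prS s D.g) ν n) =
      dC F L s n D := by
  sorry

/-- `dz` does not depend on the field of characteristic two: `dz` is `dC` for `X = Unit`,
`L = univ`, `s = id`. -/
theorem dz_field (F F' : Type) [Field F] [CharP F 2] [Field F'] [CharP F' 2] (G : SimpleGraph V)
    (n : ℕ) {P : Type} [Group P] [Fintype P] (D : PG G P) : dz F n D ≤ dz F' n D := by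
  sorry

end Pool.Agent.H71.SC
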