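import Pool.Agent.H71.SC.Defs
import Mathlib.GroupTheory.PGroup
import Mathlib.Algebra.CharP.Two

/-!
# Singer without colours for special cube complexes: the group of the involutions `1 + c (1 + R v)`
-/

set_option autoImplicit false
set_option linter.unusedSectionVars false

open Finset

namespace Pool.Agent.H71.SC

open Pool.Agent.H77.SW Pool.Agent.H19.Cub

variable {V : Type} [DecidableEq V] [Fintype V] {K : Type} [Field K] [CharP K 2] [Finite K]

/-- the left translations -/
private def Lam_T {P : Type} [Group P] (q : P) : Module.End K (P → K) :=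
  LinearMap.funLeft K K fun p => q⁻¹ * p

private lemma Lam_T_apply {P : Type} [Group P] (q : P) (f : P → K) (p : P) :
    (Lam_T q : Module.End K (P → K)) f p = f (q⁻¹ * p) := rfl

/-- a unit of odd order which commutes with the left translations and fixes the constants is `1` -/
private lemma Lam_odd {P : Type} [Group P] [Fintype P] (hP : IsPGroup 2 P)
    (u : Module.End K (P → K)) (hT : ∀ q, u * Lam_T q = Lam_T q * u)
    (h1 : u (fun _ => 1) = fun _ => 1) {m : ℕ} (hm : Odd m) (hum : u ^ m = 1) : u = 1 := by
  classical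
  by_contra hne
  let N : Submodule K (P → K) := LinearMap.range (u - 1)
  have hN : ∀ q : P, ∀ f ∈ N, (Lam_T q : Module.End K (P → K)) f ∈ N := by
    rintro q _ ⟨h, rfl⟩
    refine ⟨(Lam_T q : Module.End K (P → K)) h, ?_⟩
    have h2 : (u - 1) * Lam_T q = Lam_T q * (u - 1) := by
      rw [sub_mul, mul_sub, hT q, one_mul, mul_one]
    exact LinearMap.congr_fun h2 h
  letI act : MulAction P N :=
    { smul := fun q f => ⟨(Lam_T q : Module.End K (P → K)) f.1, hN q f.1 f.2⟩
      one_smul := fun f => by
        apply Subtype.ext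
        funext p
        show f.1 ((1 : P)⁻¹ * p) = f.1 p
        rw [inv_one, one_mul]
      mul_smul := fun q q' f => by
        apply Subtype.ext
        funext p
        show f.1 ((q * q')⁻¹ * p) = f.1 (q'⁻¹ * (q⁻¹ * p))
        rw [mul_inv_rev, mul_assoc] }
  have hfin : Finite N := inferInstance
  -- a non-zero element of `N`
  obtain ⟨x, hx⟩ : ∃ x : N, x ≠ 0 := by
    by_contra hcon
    push Not at hcon
    apply hne
    refine LinearMap.ext fun f => ?_
    have h2 := congrArg Subtype.val (hcon ⟨(u - 1) f, f, rfl⟩)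
    have h3 : u f - f = 0 := h2
    exact sub_eq_zero.mp h3
  have hdvd : 2 ∣ Nat.card N := by
    have h2 : addOrderOf x = 2 := by
      refine addOrderOf_eq_prime (p := 2) ?_ hx
      rw [two_nsmul]
      apply Subtype.ext
      funext p
      show x.1 p + x.1 p = 0
      exact CharTwo.add_self_eq_zero _
    rw [← h2]
    exact addOrderOf_dvd_natCard x
  have h0 : (0 : N) ∈ MulAction.fixedPoints P N := by
    intro q
    apply Subtype.ext
    funext p
    rfl
  obtain ⟨f, hf, hf0⟩ := hP.exists_fixed_point_of_prime_dvd_card_of_fixed_point N hdvd h0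
  have hconst : ∀ p, f.1 p = f.1 1 := by
    intro p
    have h2 := congrFun (congrArg Subtype.val (hf p)) p
    have h3 : f.1 (p⁻¹ * p) = f.1 p := h2
    rw [inv_mul_cancel] at h3
    exact h3.symm
  have hf1 : f.1 1 ≠ 0 := by
    intro h2
    apply hf0
    apply Subtype.ext
    funext p
    show (0 : K) = f.1 p
    rw [hconst p, h2]
  obtain ⟨h, hh⟩ := f.2
  -- `1 = (u - 1) h'`
  have hh' : (u - 1) ((f.1 1)⁻¹ • h) = fun _ => 1 := by
    rw [map_smul]
    funext p
    have h2 := congrFun hh p
    rw [Pi.smul_apply, h2, hconst p, smul_eq_mul, inv_mul_cancel₀ hf1]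
  have hpow : ∀ j : ℕ, (u ^ j) (fun _ => (1 : K)) = fun _ => 1 := by
    intro j
    induction j with
    | zero => rfl
    | succ j ih =>
      rw [pow_succ]
      show (u ^ j) (u fun _ => 1) = _
      rw [h1, ih]
  have hsum := LinearMap.congr_fun (geom_sum_mul u m) ((f.1 1)⁻¹ • h)
  rw [hum, sub_self] at hsum
  have h3 : (∑ i ∈ range m, u ^ i) ((u - 1) ((f.1 1)⁻¹ • h)) = 0 := hsum
  rw [hh', LinearMap.sum_apply] at h3
  have h4 := congrFun h3 1
  rw [Finset.sum_apply] at h4
  simp only [hpow] at h4
  rw [sum_const, card_range, nsmul_eq_mul, mul_one] at h4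
  have h5 : ((m : ℕ) : K) = 0 := h4
  rw [CharP.cast_eq_zero_iff K 2] at h5
  obtain ⟨k, hk⟩ := hm
  omega

/-- the involutions as endomorphisms -/
private lemma Lam_sq {G : SimpleGraph V} {P : Type} [Group P] (D : PG G P) (c : K) (v : V) :
    (rL K D c v : Module.End K (P → K)) * rL K D c v = 1 := by
  refine LinearMap.ext fun f => ?_
  funext p
  show (f p + c * (f p + f (p * D.g v))) + c * ((f p + c * (f p + f (p * D.g v))) +
    (f (p * D.g v) + c * (f (p * D.g v) + f (p * D.g v * D.g v)))) = f p
  have h2 : p * D.g v * D.g v = p := by rw [mul_assoc, D.sq, mul_one]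
  have h3 : (2 : K) = 0 := CharTwo.two_eq_zero
  rw [h2]
  linear_combination (c * (f p + f (p * D.g v)) + c * c * (f p + f (p * D.g v))) * h3

private lemma Lam_comm {G : SimpleGraph V} {P : Type} [Group P] (D : PG G P) (c : K) {u v : V}
    (h : G.Adj u v) : (rL K D c u : Module.End K (P → K)) * rL K D c v =
      (rL K D c v : Module.End K (P → K)) * rL K D c u := by
  refine LinearMap.ext fun f => ?_
  funext p
  show (f p + c * (f p + f (p * D.g v))) + c * ((f p + c * (f p + f (p * D.g v))) +
    (f (p * D.g u) + c * (f (p * D.g u) + f (p * D.g u * D.g v)))) =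
    (f p + c * (f p + f (p * D.g u))) + c * ((f p + c * (f p + f (p * D.g u))) +
    (f (p * D.g v) + c * (f (p * D.g v) + f (p * D.g v * D.g u))))
  have h2 : p * D.g u * D.g v = p * D.g v * D.g u := by rw [mul_assoc, mul_assoc, D.comm u v h]
  rw [h2]
  ring

/-- the involutions as units -/
private def Lam_u {G : SimpleGraph V} {P : Type} [Group P] (D : PG G P) (c : K) (v : V) :
    (Module.End K (P → K))ˣ where
  val := rL K D c v
  inv := rL K D c v
  val_inv := Lam_sq D c v
  inv_val := Lam_sq D c v

/-- the generators -/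
private def Lam_g {G : SimpleGraph V} {P : Type} [Group P] (D : PG G P) (c : K) (v : V) :
    (Module.End K (P → K))ˣ × Multiplicative (V → ZMod 2) :=
  (Lam_u D c v, Multiplicative.ofAdd (Pi.single v 1))

/-- the group -/
private def Lam_P {G : SimpleGraph V} {P : Type} [Group P] (D : PG G P) (c : K) :
    Subgroup ((Module.End K (P → K))ˣ × Multiplicative (V → ZMod 2)) :=
  Subgroup.closure (Set.range (Lam_g D c))

private lemma Lam_fst {G : SimpleGraph V} {P : Type} [Group P] (D : PG G P) (c : K)
    {x : (Module.End K (P → K))ˣ × Multiplicative (V → ZMod 2)} (hx : x ∈ Lam_P D c) :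
    (∀ q, (x.1 : Module.End K (P → K)) * Lam_T q = Lam_T q * (x.1 : Module.End K (P → K))) ∧
      (x.1 : Module.End K (P → K)) (fun _ => 1) = fun _ => 1 := by
  induction hx using Subgroup.closure_induction with
  | mem x hx =>
    obtain ⟨v, rfl⟩ := hx
    refine ⟨fun q => ?_, ?_⟩
    · refine LinearMap.ext fun f => ?_
      funext p
      show f (q⁻¹ * p) + c * (f (q⁻¹ * p) + f (q⁻¹ * (p * D.g v))) =
        f (q⁻¹ * p) + c * (f (q⁻¹ * p) + f (q⁻¹ * p * D.g v))
      rw [mul_assoc]
    · funext p
      show (1 : K) + c * (1 + 1) = 1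
      rw [CharTwo.add_self_eq_zero, mul_zero, add_zero]
  | one => exact ⟨fun q => by rw [Prod.fst_one, Units.val_one, one_mul, mul_one], rfl⟩
  | mul x y _ _ hx hy =>
    refine ⟨fun q => ?_, ?_⟩
    · rw [Prod.fst_mul, Units.val_mul, mul_assoc, hy.1 q, ← mul_assoc, hx.1 q, mul_assoc]
    · rw [Prod.fst_mul, Units.val_mul]
      show (x.1 : Module.End K (P → K)) ((y.1 : Module.End K (P → K)) fun _ => 1) = _
      rw [hy.2, hx.2]
  | inv x _ hx =>
    refine ⟨fun q => ?_, ?_⟩
    · rw [Prod.fst_inv]
      have h2 := hx.1 q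
      calc ((x.1⁻¹ : (Module.End K (P → K))ˣ) : Module.End K (P → K)) * Lam_T q
          = ((x.1⁻¹ : (Module.End K (P → K))ˣ) : Module.End K (P → K)) * Lam_T q *
            ((x.1 : Module.End K (P → K)) *
              ((x.1⁻¹ : (Module.End K (P → K))ˣ) : Module.End K (P → K))) := by
            rw [Units.mul_inv, mul_one]
        _ = ((x.1⁻¹ : (Module.End K (P → K))ˣ) : Module.End K (P → K)) *
            (Lam_T q * (x.1 : Module.End K (P → K))) *
              ((x.1⁻¹ : (Module.End K (P → K))ˣ) : Module.End K (P → K)) := by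
            simp only [mul_assoc]
        _ = ((x.1⁻¹ : (Module.End K (P → K))ˣ) : Module.End K (P → K)) *
            ((x.1 : Module.End K (P → K)) * Lam_T q) *
              ((x.1⁻¹ : (Module.End K (P → K))ˣ) : Module.End K (P → K)) := by rw [h2]
        _ = _ := by rw [← mul_assoc, Units.inv_mul, one_mul]
    · rw [Prod.fst_inv]
      calc ((x.1⁻¹ : (Module.End K (P → K))ˣ) : Module.End K (P → K)) (fun _ => 1)
          = ((x.1⁻¹ : (Module.End K (P → K))ˣ) : Module.End K (P → K))
            ((x.1 : Module.End K (P → K)) fun _ => 1) := by rw [hx.2]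
        _ = (((x.1⁻¹ : (Module.End K (P → K))ˣ) : Module.End K (P → K)) *
            (x.1 : Module.End K (P → K))) (fun _ => 1) := rfl
        _ = _ := by rw [Units.inv_mul]; rfl

/-- **The involutions `rL K D c v = 1 + c (1 + R v)` generate a finite two-group.**

Let `P'` be the subgroup of `((P → K) ≃ₗ[K] (P → K)) × Multiplicative (V → ZMod 2)` generated by the
pairs `g' v = (rL K D c v, e v)`, where `e v` is the `v`-th unit vector; it is finite. `rL K D c v` is
an involution in characteristic two, since `(1 + R v) (1 + R v) = 0`, and the involutions of adjacent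
`u v` commute; `b' = ` the second component. Let `R (u, w) = u⁻¹` as a linear map.

`P'` is a two-group: every `u` in the first component of `P'` commutes with the left translations
`(T q f) p = f (q⁻¹ * p)` and fixes the constant function `1` (closure induction). Let `u ^ m = 1` with
`m` odd. Then `u = 1`: otherwise let `N ≠ 0` be the range of `u - 1`, a finite set whose cardinality
is even; the two-group `P` acts on `N` by `T`, so it has a fixed point `f ≠ 0`
(`IsPGroup.card_modEq_card_fixedPoints`), a constant function; so `1 = (u - 1) h` for some `h`. Apply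
`∑ j < m, u ^ j`: the right-hand side is `(u ^ m - 1) h = 0`, the left-hand side is `m = 1` in `K`, a
contradiction. For an arbitrary element `p` of order `2 ^ a * m`, `m` odd, `p ^ (2 ^ (a + 1)) = 1`. -/
theorem exists_lam (G : SimpleGraph V) {P : Type} [Group P] [Fintype P] (D : PG G P) (c : K) :
    ∃ (P' : Type) (_ : Group P') (_ : Fintype P') (D' : PG G P') (R : P' → (P → K) →ₗ[K] (P → K)),
      (∀ p, Function.Injective (R p)) ∧ ∀ p v f, rL K D c v (R (p * D'.g v) f) = R p f := by
  classical
  have hf1 : Finite (P → K) := inferInstance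
  have hf2 : Finite (Module.End K (P → K)) :=
    Finite.of_injective (fun u : Module.End K (P → K) => (u : (P → K) → (P → K)))
      DFunLike.coe_injective
  have hf3 : Finite (Module.End K (P → K))ˣ :=
    Finite.of_injective (fun u : (Module.End K (P → K))ˣ => (u : Module.End K (P → K)))
      Units.val_injective
  have hf4 : Finite ((Module.End K (P → K))ˣ × Multiplicative (V → ZMod 2)) := inferInstance
  have hf5 : Finite (Lam_P D c) := inferInstance
  have htwo : IsPGroup 2 (Lam_P D c) := by
    rintro ⟨x, hx⟩
    have hn : orderOf x ≠ 0 := (orderOf_pos x).ne'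
    obtain ⟨a, m, hm, ham⟩ := Nat.exists_eq_two_pow_mul_odd hn
    have hy : x ^ 2 ^ a ∈ Lam_P D c := Subgroup.pow_mem _ hx _
    obtain ⟨h2, h3⟩ := Lam_fst D c hy
    have h4 : (x ^ 2 ^ a) ^ m = 1 := by
      rw [← pow_mul, ← ham, pow_orderOf_eq_one]
    have h5 : (((x ^ 2 ^ a).1 : (Module.End K (P → K))ˣ) : Module.End K (P → K)) ^ m = 1 := by
      have h6 := congrArg Prod.fst h4
      rw [Prod.fst_one] at h6
      have h7 := congrArg Units.val h6
      rw [Units.val_one] at h7
      rw [← h7]
      rfl
    have h6 := Lam_odd D.two _ h2 h3 hm h5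
    have h7 : (x ^ 2 ^ a).1 = 1 := Units.ext h6
    refine ⟨a + 1, ?_⟩
    apply Subtype.ext
    show x ^ 2 ^ (a + 1) = 1
    rw [pow_succ, pow_mul]
    refine Prod.ext ?_ ?_
    · rw [Prod.pow_fst, h7, one_pow, Prod.fst_one]
    · rw [Prod.pow_snd, Prod.snd_one]
      apply Multiplicative.toAdd.injective
      funext v
      rw [toAdd_pow, toAdd_one, two_nsmul]
      exact CharTwo.add_self_eq_zero _
  let D' : PG G (Lam_P D c) :=
    { g := fun v => ⟨Lam_g D c v, Subgroup.subset_closure ⟨v, rfl⟩⟩
      sq := fun v => by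
        apply Subtype.ext
        refine Prod.ext (Units.ext (Lam_sq D c v)) ?_
        apply Multiplicative.toAdd.injective
        funext w
        exact CharTwo.add_self_eq_zero _
      comm := fun u v h => by
        apply Subtype.ext
        refine Prod.ext (Units.ext (Lam_comm D c h)) ?_
        exact mul_comm _ _
      b := fun p v => Multiplicative.toAdd p.1.2 v
      b_mul := fun p q v => rfl
      b_g := fun u v => by
        show (Pi.single u 1 : V → ZMod 2) v = _
        rw [Pi.single_apply]
        exact if_congr eq_comm rfl rfl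
      two := htwo }
  refine ⟨Lam_P D c, inferInstance, Fintype.ofFinite _, D', fun p =>
    ((p.1.1⁻¹ : (Module.End K (P → K))ˣ) : Module.End K (P → K)), fun p => ?_, fun p v f => ?_⟩
  · intro f f' h
    have h2 : ∀ f : P → K, (p.1.1 : Module.End K (P → K))
        (((p.1.1⁻¹ : (Module.End K (P → K))ˣ) : Module.End K (P → K)) f) = f := by
      intro f
      calc (p.1.1 : Module.End K (P → K))
            (((p.1.1⁻¹ : (Module.End K (P → K))ˣ) : Module.End K (P → K)) f)
          = ((p.1.1 : Module.End K (P → K)) *
            ((p.1.1⁻¹ : (Module.End K (P → K))ˣ) : Module.End K (P → K))) f := rfl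
        _ = f := by rw [Units.mul_inv]; rfl
    rw [← h2 f, ← h2 f']
    exact congrArg _ h
  · have h2 : ((((p * D'.g v).1.1)⁻¹ : (Module.End K (P → K))ˣ) : Module.End K (P → K)) =
        (rL K D c v : Module.End K (P → K)) *
          ((p.1.1⁻¹ : (Module.End K (P → K))ˣ) : Module.End K (P → K)) := by
      have h3 : ((p * D'.g v).1.1)⁻¹ = (Lam_u D c v)⁻¹ * p.1.1⁻¹ := by
        show (p.1.1 * Lam_u D c v)⁻¹ = _
        rw [mul_inv_rev]
      rw [h3, Units.val_mul]
      rfl
    show rL K D c v (((((p * D'.g v).1.1)⁻¹ : (Module.End K (P → K))ˣ) :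
      Module.End K (P → K)) f) = _
    rw [h2]
    calc rL K D c v (((rL K D c v : Module.End K (P → K)) *
          ((p.1.1⁻¹ : (Module.End K (P → K))ˣ) : Module.End K (P → K))) f)
        = ((rL K D c v : Module.End K (P → K)) * rL K D c v)
          (((p.1.1⁻¹ : (Module.End K (P → K))ˣ) : Module.End K (P → K)) f) := rfl
      _ = _ := by rw [Lam_sq]; rfl

end Pool.Agent.H71.SC
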