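import Pool.Agent.H71.SC.Defs
import Pool.Agent.H77.SW.Lower

/-!
# Singer without colours for special cube complexes: the lower bound
-/

set_option autoImplicit false
set_option linter.unusedSectionVars false

open Finset

namespace Pool.Agent.H71.SC

open Pool.Agent.H77.SW Pool.Agent.H19.Cub

variable {V : Type} [DecidableEq V] [Fintype V] {X : Type} [Fintype X] {K : Type} [Field K]
  [CharP K 2]

/-- **The lower bound for cube complexes.** This is `Pool.Agent.H77.SW.lower` with the additional
variable `x` in `X`; the proof is the same: consider the functions `φ : P → (J → K)` with the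
involutions `(r̂ v φ) p = r v (φ (p * g v))` and the cycles `Finset V → X → P → J → K` for `r̂`.
(1) The map which sends `(z j)_j`, `z j ∈ ZC K G L s n (rP K D)`, to
`φ σ x p = R p (fun j => z j σ x p)` is injective with values in the cycles for `r̂`.
(2) For a subgroup `H` let `S H` be the subspace of the cycles `φ` for `r̂` with
`φ σ x (h * p) = φ σ x p` for `h ∈ H`. `S ⊤` is isomorphic to `ZC K G L s n r` (`φ ↦ φ · · 1`). If
`H ≤ H'` has index two and `c ∈ H' \ H` then `φ ↦ φ + φ (c * ·)` maps `S H` to `S H'` and its kernel
is in `S H'` (characteristic two); so `finrank (S H) ≤ 2 * finrank (S H')`. By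
`Sylow.exists_subgroup_card_pow_succ` there is a chain from `⊥` to `⊤`. -/
theorem lowerC (G : SimpleGraph V) (L : X → Finset V) (s : V → X → X) (n : ℕ) {P : Type} [Group P]
    [Fintype P] (D : PG G P) {J : Type} [Fintype J] (r : V → (J → K) →ₗ[K] (J → K))
    (R : P → (J → K) →ₗ[K] (J → K)) (hR : ∀ p, Function.Injective (R p))
    (hr : ∀ p v f, r v (R (p * D.g v) f) = R p f) :
    Fintype.card J * dC K L s n D ≤ Fintype.card P * Module.finrank K (ZC K G L s n r) := by
  sorry

/-- the lower bound for the Betti numbers -/
theorem hC_lower (G : SimpleGraph V) (L : X → Finset V) (s : V → X → X) (i : ℕ) {P : Type} [Group P]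
    [Fintype P] (D : PG G P) {J : Type} [Fintype J] (r : V → (J → K) →ₗ[K] (J → K))
    (R : P → (J → K) →ₗ[K] (J → K)) (hR : ∀ p, Function.Injective (R p))
    (hr : ∀ p v f, r v (R (p * D.g v) f) = R p f) :
    Fintype.card J * hC K L s i D ≤ Fintype.card P * (Module.finrank K (ZC K G L s i r) +
      Module.finrank K (ZC K G L s (i + 1) r) - cC G L (i + 1) * Fintype.card J) := by
  have h1 : (Fintype.card J * dC K L s i D : ℝ) ≤
      Fintype.card P * Module.finrank K (ZC K G L s i r) := by
    exact_mod_cast lowerC G L s i D r R hR hr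
  have h2 : (Fintype.card J * dC K L s (i + 1) D : ℝ) ≤
      Fintype.card P * Module.finrank K (ZC K G L s (i + 1) r) := by
    exact_mod_cast lowerC G L s (i + 1) D r R hR hr
  unfold hC
  nlinarith [h1, h2]

end Pool.Agent.H71.SC
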