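import Pool.Agent.H71.SC.Dim
import Pool.Agent.H71.SC.Lower
import Pool.Agent.H19.Cub.Transf
import Pool.Agent.H4.Singer.Core

/-!
# Singer without colours for special cube complexes: from finite levels to `ℓ²`
-/

set_option autoImplicit false
set_option linter.unusedSectionVars false

open Finset Filter Topology

namespace Pool.Agent.H71.SC

open Pool.Agent.H77.SW Pool.Agent.H19.Cub Pool.Agent.H4.Singer Pool.Agent.H4.Atiyah

variable {V : Type} [DecidableEq V] [Fintype V] {X : Type} [Fintype X]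

private theorem Luck_harm (G : SimpleGraph V) (L : X → Finset V) (s : V → X → X)
    (hs : IsSpec G L s) (i : ℕ) (ν : V → ℕ) (hν : Function.Injective ν)
    (h : ∀ ε : ℝ, 0 < ε → ∃ (K : Type) (_ : Field K) (_ : CharP K 2) (P : Type) (_ : Group P)
      (_ : Fintype P) (D : PG G P), hC K L s i D ≤ ε * Fintype.card P) :
    ∀ f : Finset V → X × RGrp G → ℂ,
      IsHarmS G (prY L (RGrp G)) (prS s (gen G)) ν i f → f = 0 := by
  classical
  have h1 := fun N => exists_two_group G N
  choose P₁ grp₁ fin₁ π₁ hP₁ hsep using h1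
  have h2 := fun j : ℕ => h (1 / (j + 1 : ℝ)) (by positivity)
  choose K fld chr P₂ grp₂ fin₂ D hD using h2
  have h3 : ∀ j, ∃ π : RGrp G →* P₂ j, ∀ v, π (gen G v) = (D j).g v := fun j =>
    exists_lift G (D j).g (D j).sq (D j).comm
  choose π₂ hπ₂ using h3
  let π : ∀ j, RGrp G →* P₁ j × P₂ j := fun j => (π₁ j).prod (π₂ j)
  have hsep' : ∀ w : RGrp G, w ≠ 1 → ∀ᶠ j in atTop, π j w ≠ 1 := by
    intro w hw
    filter_upwards [eventually_ge_atTop ((racg G).toCoxeterSystem.length w)] with j hj h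
    exact hsep j w hw hj (congrArg Prod.fst h)
  have h2P : ∀ j, IsPGroup 2 (P₁ j × P₂ j) := by
    rintro j ⟨a, b⟩
    obtain ⟨k1, hk1⟩ := hP₁ j a
    obtain ⟨k2, hk2⟩ := (D j).two b
    refine ⟨k1 + k2, ?_⟩
    rw [Prod.pow_mk, pow_add, pow_mul, hk1, one_pow, mul_comm, pow_mul, hk2, one_pow]
    rfl
  let DD : ∀ j, PG G (P₁ j × P₂ j) := fun j =>
    { g := fun v => π j (gen G v)
      sq := fun v => by rw [← map_mul, gen_mul_gen, map_one]
      comm := fun u v huv => by rw [← map_mul, ← map_mul, gen_comm G u v huv]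
      b := fun p v => (D j).b p.2 v
      b_mul := fun p q v => (D j).b_mul p.2 q.2 v
      b_g := fun u v => by
        have h4 : (π j (gen G u)).2 = (D j).g u := hπ₂ j u
        rw [h4]
        exact (D j).b_g u v
      two := h2P j }
  refine harm_infS G L s hs ν i (l2ker_trivial π hsep' (HSA G L s ν i) ?_)
  intro η hη
  have hbd : ∀ j, (bT ℂ G (prY L (P₁ j × P₂ j)) (prS s (fun v => π j (gen G v))) ν i : ℝ) ≤
      1 / (j + 1 : ℝ) * Fintype.card (P₁ j × P₂ j) := by
    intro j
    have h3 : (bT ℂ G (prY L (P₁ j × P₂ j)) (prS s (fun v => π j (gen G v))) ν i : ℝ) ≤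
        hC (K j) L s i (DD j) := bT_le_hC (K j) L s hs ν hν i (DD j)
    let R : P₁ j × P₂ j → (P₂ j → K j) →ₗ[K j] (P₂ j → K j) := fun p =>
      { toFun := fun f q => f (q * p.2⁻¹)
        map_add' := fun _ _ => rfl
        map_smul' := fun _ _ => rfl }
    have h4 := hC_lower (K := K j) G L s i (DD j) (J := P₂ j) (rP (K j) (D j)) R
      (fun p f f' hff => by
        funext q
        have h5 := congrFun hff (q * p.2)
        have h6 : f (q * p.2 * p.2⁻¹) = f' (q * p.2 * p.2⁻¹) := h5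
        rwa [mul_inv_cancel_right] at h6)
      (fun p v f => by
        funext q
        change f (q * (D j).g v * ((p * π j (gen G v)).2)⁻¹) = f (q * p.2⁻¹)
        have h5 : (p * π j (gen G v)).2 = p.2 * (D j).g v := by
          rw [← hπ₂]
          rfl
        rw [h5, mul_inv_rev, ← mul_assoc, mul_inv_cancel_right])
    have h6 := hD j
    have hc2 : (0 : ℝ) < Fintype.card (P₂ j) := by exact_mod_cast Fintype.card_pos
    have h7 : (Fintype.card (P₂ j) : ℝ) * hC (K j) L s i (DD j) ≤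
        Fintype.card (P₁ j × P₂ j) * hC (K j) L s i (D j) := h4
    have h8 : (Fintype.card (P₁ j × P₂ j) : ℝ) * hC (K j) L s i (D j) ≤
        Fintype.card (P₁ j × P₂ j) * (1 / (j + 1 : ℝ) * Fintype.card (P₂ j)) :=
      mul_le_mul_of_nonneg_left h6 (Nat.cast_nonneg _)
    have h9 : (Fintype.card (P₂ j) : ℝ) *
        bT ℂ G (prY L (P₁ j × P₂ j)) (prS s (fun v => π j (gen G v))) ν i ≤
          Fintype.card (P₂ j) * (1 / (j + 1 : ℝ) * Fintype.card (P₁ j × P₂ j)) := by
      refine ((mul_le_mul_of_nonneg_left h3 hc2.le).trans (h7.trans h8)).trans (le_of_eq ?_)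
      ring
    exact le_of_mul_le_mul_left h9 hc2
  have hlim : Tendsto (fun j : ℕ => 1 / ((j : ℝ) + 1)) atTop (𝓝 0) :=
    tendsto_one_div_add_atTop_nhds_zero_nat
  filter_upwards [hlim.eventually (eventually_le_nhds hη)] with j hj
  refine (harm_finS G L s hs ν hν i (P₁ j × P₂ j) (π j)).trans ((hbd j).trans ?_)
  exact mul_le_mul_of_nonneg_right hj (Nat.cast_nonneg _)

/-- **From finite levels to `ℓ²`.** The proof follows `Pool.Agent.H77.SW.l2_all` (levels
`P₁ j × P₂ j`, `exists_two_group`, `exists_lift`) and `Pool.Agent.H4.HY.harm_hv`, `general_of_hv`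
(`harm_infS`, `l2ker_trivial`, `harm_finS`, `harm_ext`, `hodgeS`). At the level `j`, for
`H = P₁ × P₂` with the marking `π (gen v)` and the bits of the second factor (`PG G H`):
`bT ℂ ≤ hC K` of `H` (`bT_le_hC`), and `|P₂| * hC K H ≤ |H| * hC K P₂` by `hC_lower` with
`J = P₂`, `r = rP K (D₂)`, `R h f q = f (q * h.2⁻¹)`. -/
theorem luck (C : CubeComplex V X) (i : ℕ)
    (h : ∀ ε : ℝ, 0 < ε → ∃ (K : Type) (_ : Field K) (_ : CharP K 2) (P : Type) (_ : Group P)
      (_ : Fintype P) (D : PG C.graph P), hC K C.lab C.cs i D ≤ ε * Fintype.card P)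
    (x : X) : L2HomologyZero (C.cover x) i := by
  intro ν hν z hz hdz ε hε
  have h1 : ∀ f : Finset V → C.Cover x → ℂ,
      IsHarmS C.graph (C.cover x).lab (C.cover x).cs ν i f → f = 0 := fun f hf =>
    C.harm_ext x ν i (Luck_harm C.graph C.lab C.cs C.isSpec i ν hν h) f hf
  obtain ⟨y, hy, hye⟩ := hodgeS C.graph (C.cover x).lab (C.cover x).cs (C.cover x).isSpec ν hν i
    h1 z (((C.cover x).isL2_iff i z).1 hz) hdz ε hε
  exact ⟨y, ((C.cover x).isL2_iff (i + 1) y).2 hy, hye⟩

end Pool.Agent.H71.SC
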