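import Pool.Agent.H71.SC.Defs
import Pool.Agent.H77.SW.Lower

/-!
# Singer without colours for special cube complexes: products
-/

set_option autoImplicit false
set_option linter.unusedSectionVars false

open Finset

namespace Pool.Agent.H71.SC

open Pool.Agent.H77.SW Pool.Agent.H19.Cub

variable {V : Type} [DecidableEq V] [Fintype V] {X : Type} [Fintype X] {K : Type} [Field K]
  [CharP K 2]

/-- The cubes with the vertex `x` are the cliques of the graph of the labels in `L x`
(`σ ↦ σ.map val`). -/
theorem sum_cz (G : SimpleGraph V) (L : X → Finset V) (n : ℕ) :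
    ∑ x, cz (G.comap (Subtype.val : {v // v ∈ L x} → V)) n = cC G L n := by
  sorry

/-- Monotonicity: `Pool.Agent.H77.SW.lower` for `n = i` and `n = i + 1`. -/
theorem hz_lower (G : SimpleGraph V) (i : ℕ) {P : Type} [Group P]
    [Fintype P] (D : PG G P) {J : Type} [Fintype J] (r : V → (J → K) →ₗ[K] (J → K))
    (R : P → (J → K) →ₗ[K] (J → K)) (hR : ∀ p, Function.Injective (R p))
    (hr : ∀ p v f, r v (R (p * D.g v) f) = R p f) :
    Fintype.card J * hz K i D ≤ Fintype.card P * (Module.finrank K (Zs K G i r) +
      Module.finrank K (Zs K G (i + 1) r) - cz G (i + 1) * Fintype.card J) := by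
  sorry

/-- **Products.** `P` = the product of the groups `P x` and of `Multiplicative (V → ZMod 2)`, `g v` has
the components `g v` of `P x` if `v ∈ L x` and `1` otherwise, and the `v`-th unit vector;
`b` = the last component. Then `hz_lower` for the graph `G.comap val`, the group `P`
with `restr D (L x)`, `J = P x`, `r = rP K (D x)` and `R p f q = f (q * (p x)⁻¹)` gives
`|P x| * hz K i (restr D (L x)) ≤ |P| * hz K i (D x)`. -/
theorem exists_prod (G : SimpleGraph V) (L : X → Finset V) (i : ℕ) (ε : ℝ)
    (h : ∀ x, ∃ (P : Type) (_ : Group P) (_ : Fintype P)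
      (D : PG (G.comap (Subtype.val : {v // v ∈ L x} → V)) P), hz K i D ≤ ε * Fintype.card P) :
    ∃ (P : Type) (_ : Group P) (_ : Fintype P) (D : PG G P),
      ∀ x, hz K i (restr D (L x)) ≤ ε * Fintype.card P := by
  sorry

end Pool.Agent.H71.SC
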