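import Pool.Agent.H71.SC.Luck
import Pool.Agent.H71.SC.Lam
import Pool.Agent.H71.SC.Deg
import Pool.Agent.H71.SC.Prod
import Pool.Agent.H77.SW.Count
import Pool.Agent.H77.SW.Seq

/-!
# Singer without colours for special cube complexes: the main theorem
-/

set_option autoImplicit false
set_option linter.unusedSectionVars false

open Finset

namespace Pool.Agent.H71.SC

open Pool.Agent.H77.SW Pool.Agent.H19.Cub Pool.Agent.H85.VK

variable {V : Type} [DecidableEq V] [Fintype V] {X : Type} [Fintype X]

/-- the dimension count for cube complexes -/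
theorem smallC (G : SimpleGraph V) (L : X → Finset V) (s : V → X → X) (hs : IsSpec G L s) (i : ℕ)
    (h : ∀ x, Growth0 (G.comap (Subtype.val : {v // v ∈ L x} → V)) i)
    (ε : ℝ) (hε : 0 < ε) : ∃ (K : Type) (_ : Field K) (_ : CharP K 2) (P : Type) (_ : Group P)
      (_ : Fintype P) (D : PG G P), hC K L s i D ≤ ε * Fintype.card P := by
  sorry

/-- **The local-to-global theorem.** -/
theorem local_global (C : CubeComplex V X) (i : ℕ)
    (h : ∀ x, Growth0 (C.graph.comap (Subtype.val : {v // v ∈ C.lab x} → V)) i) (x : X) :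
    L2HomologyZero (C.cover x) i :=
  luck C i (fun ε hε => smallC C.graph C.lab C.cs C.isSpec i h ε hε) x

/-- the top degree -/
theorem growth_top (G : SimpleGraph V) (k : ℕ)
    (hdim : ∀ σ : Finset V, G.IsClique (σ : Set V) → σ.card ≤ k + 1) (hvk : VanKampenZero G k)
    (i : ℕ) (hi : k < i) : Growth0 G i := by
  sorry

/-- **Special cube complexes in the top degree, without colours.** -/
theorem l2_cube (C : CubeComplex V X) (k : ℕ)
    (hdim : ∀ x, ∀ σ : Finset V, σ ⊆ C.lab x → C.graph.IsClique (σ : Set V) → σ.card ≤ k + 1)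
    (hvk : ∀ x, VanKampenZero (C.graph.comap (Subtype.val : {v // v ∈ C.lab x} → V)) k)
    (i : ℕ) (hi : k < i) (x : X) : L2HomologyZero (C.cover x) i := by
  refine local_global C i (fun y => growth_top _ k (fun σ hσ => ?_) (hvk y) i hi) x
  have h1 := hdim y (σ.map ⟨Subtype.val, Subtype.val_injective⟩) (by
    intro v hv
    obtain ⟨u, -, rfl⟩ := Finset.mem_map.1 hv
    exact u.2) (by
    intro u hu v hv huv
    obtain ⟨u', hu', rfl⟩ := Finset.mem_map.1 (Finset.mem_coe.1 hu)
    obtain ⟨v', hv', rfl⟩ := Finset.mem_map.1 (Finset.mem_coe.1 hv)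
    exact hσ (Finset.mem_coe.2 hu') (Finset.mem_coe.2 hv') fun h => huv (congrArg Subtype.val h))
  rwa [Finset.card_map] at h1

end Pool.Agent.H71.SC
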